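import Pool.Agent.Y590.CB.Prd

/-!
# CB3-G-KRZ, part 1: the function `Tg N 0`
-/

set_option autoImplicit false

namespace Pool.Agent.Y37.CG

open Finset
open Pool.Agent.W711.HT Pool.Agent.Y472
open Pool.Agent.Y590.CB
open scoped Real

theorem prod_root {N : ℕ} (hN : 0 < N) {ζ : ℂ} (hζ : IsPrimitiveRoot ζ N) (z : ℂ) :
    ∏ t ∈ range N, (z - ζ ^ t) = z ^ N - 1 := by
  have h1 := hζ.pow_sub_pow_eq_prod_sub_mul z 1 hN
  rw [one_pow] at h1
  rw [h1]
  have hinj : Set.InjOn (fun t : ℕ => ζ ^ t) (range N) := by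
    intro i hi j hj h
    exact hζ.pow_inj (by simpa using hi) (by simpa using hj) h
  have h2 : (range N).image (fun t : ℕ => ζ ^ t) = Polynomial.nthRootsFinset N (1 : ℂ) := by
    apply Finset.eq_of_subset_of_card_le
    · intro x hx
      obtain ⟨t, _, rfl⟩ := Finset.mem_image.1 hx
      rw [Polynomial.mem_nthRootsFinset hN, ← pow_mul, mul_comm, pow_mul, hζ.pow_eq_one, one_pow]
    · rw [hζ.card_nthRootsFinset, Finset.card_image_of_injOn hinj, Finset.card_range]
  rw [← h2, Finset.prod_image hinj]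
  simp only [mul_one]

/-- product formula -/
theorem prod_cos {N : ℕ} (hN : 0 < N) (χ : ℂ) :
    ∏ t ∈ range N, (2 * Complex.cos χ - 2 * (Real.cos (2 * π * t / N) : ℂ)) =
      2 * Complex.cos (N * χ) - 2 := by
  have hN0 : (N : ℂ) ≠ 0 := by exact_mod_cast hN.ne'
  have hζ := Complex.isPrimitiveRoot_exp N hN.ne'
  set ζ : ℂ := Complex.exp (2 * π * Complex.I / N) with hζd
  set e : ℂ := Complex.exp (χ * Complex.I) with he
  have he0 : e ≠ 0 := Complex.exp_ne_zero _
  have hz0 : ζ ≠ 0 := Complex.exp_ne_zero _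
  have h1 : 2 * Complex.cos χ = e + e⁻¹ := by
    rw [Complex.two_cos, he, ← Complex.exp_neg]
    congr 2
    ring
  have h2 : ∀ t : ℕ, 2 * (Real.cos (2 * π * t / N) : ℂ) = ζ ^ t + ζ⁻¹ ^ t := by
    intro t
    rw [Complex.ofReal_cos, Complex.two_cos, hζd, inv_pow, ← Complex.exp_nat_mul, ← Complex.exp_neg]
    congr 2
    · push_cast
      field_simp
    · push_cast
      field_simp
  have h3 : 2 * Complex.cos (N * χ) = e ^ N + e⁻¹ ^ N := by
    rw [Complex.two_cos, he, inv_pow, ← Complex.exp_nat_mul, ← Complex.exp_neg]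
    congr 2
    · ring
    · ring
  have h4 : ∀ t ∈ range N, 2 * Complex.cos χ - 2 * (Real.cos (2 * π * t / N) : ℂ) =
      e⁻¹ * ((e - ζ ^ t) * (e - ζ⁻¹ ^ t)) := by
    intro t _
    rw [h1, h2]
    have h5 : ζ ^ t * ζ⁻¹ ^ t = 1 := by
      rw [← mul_pow, mul_inv_cancel₀ hz0, one_pow]
    field_simp
    linear_combination -h5
  rw [prod_congr rfl h4, prod_mul_distrib, prod_mul_distrib, prod_root hN hζ, prod_root hN hζ.inv,
    prod_const, card_range, h3]
  have h5 : e ^ N * e⁻¹ ^ N = 1 := by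
    rw [← mul_pow, mul_inv_cancel₀ he0, one_pow]
  linear_combination (e ^ N - 2) * h5

/-- the square of `Tg N 0` -/
theorem Tg_sq {N : ℕ} (hN : 2 ≤ N) (χ : ℂ) :
    Tg N 0 χ ^ 2 = ∏ t ∈ Ioc 0 (N - 1), pc N χ t := by
  have h := split_prod (N := N) (d := 0) (y := 0) (n := (N - 1) / 2) (by omega) (by omega)
    (by omega) (pc N χ) (fun t ht => pc_symm χ (by omega) ht)
  rw [Nat.sub_zero, mid_p hN χ] at h
  rw [h]
  have t1 : Tg N 0 χ = (if N % 2 = 0 then 2 * Complex.cos (χ / 2) else 1) *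
    ∏ t ∈ Ioc 0 ((N - 1) / 2), pc N χ t := rfl
  rw [t1]
  ring

/-- `Tg N 0 = ± sin (N χ / 2) / sin (χ / 2)` -/
theorem Tg_sin {N : ℕ} (hN : 2 ≤ N) (χ : ℂ) :
    Tg N 0 χ ^ 2 * Complex.sin (χ / 2) ^ 2 = Complex.sin (N * χ / 2) ^ 2 := by
  have h1 := prod_cos (N := N) (by omega) χ
  have h2 : range N = insert 0 (Ioc 0 (N - 1)) := by
    ext t
    simp only [mem_range, mem_insert, mem_Ioc]
    omega
  rw [h2, prod_insert (by simp)] at h1
  have h3 : ∏ t ∈ Ioc 0 (N - 1), (2 * Complex.cos χ - 2 * (Real.cos (2 * π * t / N) : ℂ)) =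
      ∏ t ∈ Ioc 0 (N - 1), pc N χ t := rfl
  rw [h3, ← Tg_sq hN] at h1
  have h4 : (2 * Complex.cos χ - 2 * (Real.cos (2 * π * (0 : ℕ) / N) : ℂ)) =
      -4 * Complex.sin (χ / 2) ^ 2 := by
    have h5 : Complex.cos χ = 1 - 2 * Complex.sin (χ / 2) ^ 2 := by
      have h6 : Complex.cos χ = 2 * Complex.cos (χ / 2) ^ 2 - 1 := by
        rw [← Complex.cos_two_mul]
        congr 1
        ring
      have h7 := Complex.sin_sq_add_cos_sq (χ / 2)
      linear_combination h6 + 2 * h7
    rw [h5]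
    push_cast
    simp only [mul_zero, zero_div, Complex.cos_zero]
    ring
  have h5 : 2 * Complex.cos (N * χ) - 2 = -4 * Complex.sin (N * χ / 2) ^ 2 := by
    have h6 : Complex.cos (N * χ) = 2 * Complex.cos (N * χ / 2) ^ 2 - 1 := by
      rw [← Complex.cos_two_mul]
      congr 1
      ring
    have h7 := Complex.sin_sq_add_cos_sq (N * χ / 2)
    rw [h6]
    linear_combination 4 * h7
  rw [h4, h5] at h1
  linear_combination (-1 / 4 : ℂ) * h1

theorem norm_sin_sq (z : ℂ) : ‖Complex.sin z‖ ^ 2 = Real.sin z.re ^ 2 + Real.sinh z.im ^ 2 := by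
  have h : Complex.sin z = ((Real.sin z.re * Real.cosh z.im : ℝ) : ℂ) +
      ((Real.cos z.re * Real.sinh z.im : ℝ) : ℂ) * Complex.I := by
    conv_lhs => rw [← Complex.re_add_im z]
    rw [Complex.sin_add_mul_I]
    push_cast
    ring
  rw [h, Complex.sq_norm, Complex.normSq_add_mul_I]
  have h1 := Real.sin_sq_add_cos_sq z.re
  have h2 := Real.cosh_sq z.im
  calc (Real.sin z.re * Real.cosh z.im) ^ 2 + (Real.cos z.re * Real.sinh z.im) ^ 2 =
      Real.sin z.re ^ 2 * Real.cosh z.im ^ 2 + Real.cos z.re ^ 2 * Real.sinh z.im ^ 2 := by ring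
    _ = Real.sin z.re ^ 2 * (Real.sinh z.im ^ 2 + 1) +
        (1 - Real.sin z.re ^ 2) * Real.sinh z.im ^ 2 := by rw [h2]; rw [← h1]; ring
    _ = _ := by ring

/-- lower bound of the sine away from its zeros -/
theorem sin_low {z : ℂ} (h : ∀ t : ℤ, 1 / 2 ≤ ‖z - π * t‖) :
    1 / 10 * Real.exp |z.im| ≤ ‖Complex.sin z‖ := by
  have hπ := Real.pi_pos
  have h0 := norm_sin_sq z
  have hE : 0 < Real.exp |z.im| := Real.exp_pos _
  apply le_of_sq_le_sq _ (norm_nonneg _)
  rw [h0]
  rcases le_total (1 / 4) |z.im| with h1 | h1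
  · have h2 : 5 / 4 ≤ Real.exp |z.im| := by
      have := Real.add_one_le_exp |z.im|
      linarith
    have h3 : Real.sinh z.im ^ 2 = Real.sinh |z.im| ^ 2 := by
      rw [← sq_abs (Real.sinh z.im), Real.abs_sinh]
    have h4 : 1 / 10 * Real.exp |z.im| ≤ Real.sinh |z.im| := by
      rw [Real.sinh_eq, Real.exp_neg]
      have h5 : (Real.exp |z.im|)⁻¹ ≤ 4 / 5 * Real.exp |z.im| := by
        rw [inv_le_comm₀ hE (by positivity)]
        have : (4 / 5 * Real.exp |z.im|)⁻¹ ≤ 1 := by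
          apply inv_le_one_of_one_le₀
          linarith
        linarith
      linarith
    rw [h3]
    have h5 : 0 ≤ 1 / 10 * Real.exp |z.im| := by positivity
    have h6 := pow_le_pow_left₀ h5 h4 2
    have h7 := sq_nonneg (Real.sin z.re)
    linarith
  · have h2 : Real.exp |z.im| ≤ 4 / 3 := by
      have h3 := Real.add_one_le_exp (-|z.im|)
      rw [Real.exp_neg] at h3
      have h4 : 3 / 4 ≤ (Real.exp |z.im|)⁻¹ := by linarith
      rw [le_inv_comm₀ (by norm_num) hE] at h4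
      norm_num at h4
      linarith
    set t : ℤ := round (z.re / π) with ht
    have h3 := h t
    have h4 := abs_sub_round (z.re / π)
    rw [← ht] at h4
    set u : ℝ := z.re - t * π with hu
    have h5 : |u| ≤ π / 2 := by
      have : u = (z.re / π - t) * π := by
        rw [hu]
        field_simp
      rw [this, abs_mul, abs_of_pos hπ]
      nlinarith
    have h6 : ‖z - π * t‖ ^ 2 = u ^ 2 + z.im ^ 2 := by
      rw [Complex.sq_norm, Complex.normSq_apply]
      have e1 : (z - π * t).re = u := by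
        simp [hu]
        ring
      have e2 : (z - π * t).im = z.im := by
        simp
      rw [e1, e2]
      ring
    have h7 : z.im ^ 2 ≤ 1 / 16 := by
      rw [← sq_abs]
      nlinarith [abs_nonneg z.im]
    have h8 : 3 / 16 ≤ |u| ^ 2 := by
      rw [sq_abs]
      nlinarith [norm_nonneg (z - π * t)]
    have h9 : Real.sin z.re ^ 2 = Real.sin |u| ^ 2 := by
      have e1 : Real.sin |u| ^ 2 = Real.sin u ^ 2 := by
        rcases abs_choice u with h | h
        · rw [h]
        · rw [h, Real.sin_neg, neg_sq]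
      rw [e1, hu, Real.sin_sub_int_mul_pi, mul_pow]
      have e2 : ((-1 : ℝ) ^ t) ^ 2 = 1 := by
        rw [← zpow_natCast, ← zpow_mul, mul_comm, zpow_mul]
        norm_num
      rw [e2, one_mul]
    have h10 := Real.mul_le_sin (abs_nonneg u) h5
    have h11 : (2 / π * |u|) ^ 2 ≤ Real.sin |u| ^ 2 := by
      apply pow_le_pow_left₀ (by positivity) h10
    have h12 : 3 / 40 ≤ (2 / π * |u|) ^ 2 := by
      rw [mul_pow, div_pow, div_mul_eq_mul_div, le_div_iff₀ (by positivity)]
      have : π ^ 2 ≤ 10 := by nlinarith [Real.pi_lt_d2, Real.pi_gt_three]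
      nlinarith
    have h13 := sq_nonneg (Real.sinh z.im)
    rw [h9]
    nlinarith

end Pool.Agent.Y37.CG
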