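import Pool.Agent.Y472.G.Defs
import Pool.Agent.Y37.CG.Sin
import Pool.Agent.Y590.CB.Ent

/-!
# CB3-G-KRZ: the rest of the kernel
-/

set_option autoImplicit false

namespace Pool.Agent.Y37.CG

open Finset Filter Topology
open Pool.Agent.W711.HT Pool.Agent.Y472
open Pool.Agent.W346.HT (Sd_pos Sd_mul)
open Pool.Agent.Y590.CB
open scoped Real

theorem norm_sin_le (z : ℂ) : ‖Complex.sin z‖ ≤ Real.exp |z.im| := by
  apply le_of_sq_le_sq _ (Real.exp_pos _).le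
  rw [norm_sin_sq]
  have h1 : Real.sin z.re ^ 2 ≤ 1 := Real.sin_sq_le_one _
  have h2 := Real.cosh_sq z.im
  have h3 : Real.cosh z.im ≤ Real.exp |z.im| := by
    rw [← Real.cosh_abs, Real.cosh_eq]
    have : Real.exp (-|z.im|) ≤ Real.exp |z.im| :=
      Real.exp_le_exp.2 (by linarith [abs_nonneg z.im])
    linarith
  have h4 : Real.cosh z.im ^ 2 ≤ Real.exp |z.im| ^ 2 :=
    pow_le_pow_left₀ (Real.cosh_pos _).le h3 2
  linarith

/-- lower bound of `Tg N 0` -/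
theorem Tg_low {N : ℕ} (hN : 2 ≤ N) {χ : ℂ} (hg : Gap N χ) (hχ : |χ.im| ≤ 4) :
    Real.exp (N * (|χ.im| / 2)) ≤ 10 * Real.exp 2 * ‖Tg N 0 χ‖ := by
  have hNR : (0 : ℝ) < N := by exact_mod_cast (show 0 < N by omega)
  have hNC : (N : ℂ) ≠ 0 := by exact_mod_cast (show N ≠ 0 by omega)
  have h1 := congrArg norm (Tg_sin hN χ)
  rw [norm_mul, norm_pow, norm_pow, norm_pow, ← mul_pow] at h1
  have h2 : ‖Tg N 0 χ‖ * ‖Complex.sin (χ / 2)‖ = ‖Complex.sin (N * χ / 2)‖ :=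
    (pow_left_inj₀ (by positivity) (norm_nonneg _) two_ne_zero).1 h1
  have h3 : 1 / 10 * Real.exp |(N * χ / 2).im| ≤ ‖Complex.sin (N * χ / 2)‖ := by
    apply sin_low
    intro t
    have h4 := hg t
    have h5 : (N * χ / 2 - π * t : ℂ) = (N / 2 : ℂ) * (χ - 2 * π * t / N) := by
      field_simp
    rw [h5, norm_mul]
    have h6 : ‖(N / 2 : ℂ)‖ = N / 2 := by
      rw [norm_div, Complex.norm_natCast]
      norm_num
    rw [h6]
    calc (1 : ℝ) / 2 = N / 2 * (1 / N) := by field_simp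
      _ ≤ _ := mul_le_mul_of_nonneg_left h4 (by positivity)
  have h4 : |(N * χ / 2).im| = N * (|χ.im| / 2) := by
    have : (N * χ / 2 : ℂ).im = N * (χ.im / 2) := by
      have : (N * χ / 2 : ℂ) = ((N / 2 : ℝ) : ℂ) * χ := by
        push_cast
        ring
      rw [this, Complex.im_ofReal_mul]
      ring
    rw [this, abs_mul, abs_div, Nat.abs_cast, abs_two]
  have h5 : ‖Complex.sin (χ / 2)‖ ≤ Real.exp 2 := by
    refine (norm_sin_le _).trans (Real.exp_le_exp.2 ?_)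
    have : (χ / 2).im = χ.im / 2 := by
      have : (χ / 2 : ℂ) = ((1 / 2 : ℝ) : ℂ) * χ := by
        push_cast
        ring
      rw [this, Complex.im_ofReal_mul]
      ring
    rw [this, abs_div, abs_two]
    linarith
  rw [h4] at h3
  have h6 : ‖Tg N 0 χ‖ * ‖Complex.sin (χ / 2)‖ ≤ ‖Tg N 0 χ‖ * Real.exp 2 :=
    mul_le_mul_of_nonneg_left h5 (norm_nonneg _)
  linarith

theorem Tg_split {N e : ℕ} (he : e ≤ (N - 1) / 2) (χ : ℂ) :
    Tg N 0 χ = (∏ t ∈ Ioc 0 e, pc N χ t) * Tg N e χ := by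
  have t1 : Tg N 0 χ = (if N % 2 = 0 then 2 * Complex.cos (χ / 2) else 1) *
    ∏ t ∈ Ioc 0 ((N - 1) / 2), pc N χ t := rfl
  have t2 : Tg N e χ = (if N % 2 = 0 then 2 * Complex.cos (χ / 2) else 1) *
    ∏ t ∈ Ioc e ((N - 1) / 2), pc N χ t := rfl
  rw [t1, t2, ← Finset.prod_Ioc_consecutive _ (Nat.zero_le e) he]
  ring

theorem Sd_zero (N : ℕ) : Sd N 0 = 1 := by
  unfold Sd
  rw [range_zero, prod_empty]

/-- the difference of the kernels -/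
theorem diff_eq {N : ℕ} (hN : 2 ≤ N) {ψ ψ' χ : ℂ} (hT : Tg N 0 χ ≠ 0) :
    kF N ψ ψ' χ - kh N ψ ψ' χ = ∑ d ∈ Ico ((N - 1) / 2 + 1) N, Rp N d ψ * Rp N d ψ' *
      ((Sd N (N - 1 - d) : ℂ) ^ 2 * (∏ t ∈ Ioc 0 (N - 1 - d), pc N χ t) /
        ((N : ℂ) ^ 2 * Tg N 0 χ)) := by
  have hNC : (N : ℂ) ≠ 0 := by exact_mod_cast (show N ≠ 0 by omega)
  have h0 : ∀ {k : ℕ}, k < N → (Sd N k : ℂ) ≠ 0 := by
    intro k hk
    exact_mod_cast (Sd_pos hk).ne'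
  have hf : ∀ e ≤ (N - 1) / 2, (∏ t ∈ Ioc 0 e, pc N χ t) ≠ 0 ∧ Tg N e χ ≠ 0 := by
    intro e he
    have h1 := hT
    rw [Tg_split he] at h1
    exact ⟨left_ne_zero_of_mul h1, right_ne_zero_of_mul h1⟩
  unfold kF kh
  rw [← Finset.sum_range_add_sum_Ico _ (show (N - 1) / 2 + 1 ≤ N by omega)]
  have h1 : ∑ d ∈ range ((N - 1) / 2 + 1), Rp N d ψ * Rp N d ψ' * Tg N 0 χ /
      ∏ t ∈ Ioc 0 d, Ph N χ t = ∑ d ∈ range ((N - 1) / 2 + 1),
      Rp N d ψ * Rp N d ψ' * Tg N d χ / (Sd N d : ℂ) ^ 2 := by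
    refine sum_congr rfl fun d hd => ?_
    rw [mem_range] at hd
    obtain ⟨h2, h3⟩ := hf d (by omega)
    have h4 := h0 (show d < N by omega)
    simp only [Ph_eq, prod_mul_distrib]
    have h5 := Sd_qc N (Nat.zero_le d)
    rw [Sd_zero, one_pow, one_mul] at h5
    have h6 : ∏ t ∈ Ioc 0 d, ((qc N t : ℝ) : ℂ) = (Sd N d : ℂ) ^ 2 := by
      exact_mod_cast h5
    rw [h6, Tg_split (show d ≤ (N - 1) / 2 by omega)]
    field_simp
  rw [h1, add_sub_cancel_left]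
  refine sum_congr rfl fun d hd => ?_
  rw [mem_Ico] at hd
  have he : N - 1 - d ≤ (N - 1) / 2 := by omega
  obtain ⟨h2, h3⟩ := hf _ he
  have h4 := h0 (show N - 1 - d < N by omega)
  have h5 := prod_Ph hN χ (Nat.zero_le _) he
  have h6 : N - 1 - (N - 1 - d) = d := by omega
  rw [h6, Sd_zero] at h5
  rw [h5, Complex.ofReal_one, one_pow, div_one]
  have h7 := Tg_split he χ
  set P := ∏ t ∈ Ioc 0 (N - 1 - d), pc N χ t
  set T := Tg N (N - 1 - d) χ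
  rw [h7]
  field_simp

/-- the bound near the height `y₀` -/
theorem krz_at {y₀ : ℝ} (hy0 : 0 ≤ y₀) (hy1 : y₀ ≤ 9 / 5) (r : ℝ → ℝ → ℝ)
    (hT : ∀ ε : ℝ, 0 < ε → ∃ τ : ℝ, 0 < τ ∧ ∀ᶠ N : ℕ in atTop, ∀ x : ℕ, x < N → ∀ χ : ℂ,
      |χ.re| ≤ π → |χ.im - y₀| ≤ τ →
      ‖∏ t ∈ Ioc 0 x, pc N χ t‖ ≤ Sd N x ^ 2 * Real.exp (N * (r ((x : ℝ) / N) χ.re + ε)))
    (hR1 : ∀ δ x : ℝ, 0 ≤ δ → δ ≤ 1 → |x| ≤ π → r (1 - δ) x = y₀ - r δ x)
    (hR3 : ∀ δ x : ℝ, 1 / 2 ≤ δ → δ ≤ 1 → |x| ≤ π →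
      2 * max (bb δ 0) 0 + y₀ / 2 - r δ x ≤ bet)
    (h4 : ∀ δ x : ℝ, 0 ≤ δ → δ ≤ 1 → |x| ≤ π → bb δ x ≤ max (bb δ 0) 0)
    {ε : ℝ} (hε : 0 < ε) : ∃ τ : ℝ, 0 < τ ∧ ∀ᶠ N : ℕ in atTop, ∀ ψ ψ' χ : ℂ,
      |ψ.re| ≤ π → |ψ.im| ≤ τ → |ψ'.re| ≤ π → |ψ'.im| ≤ τ → |χ.re| ≤ π → |χ.im - y₀| ≤ τ →
      Gap N χ → ‖kF N ψ ψ' χ - kh N ψ ψ' χ‖ ≤ Real.exp (N * (bet + ε)) := by
  set e : ℝ := ε / 10 with he
  have he0 : 0 < e := by positivity
  obtain ⟨τ1, hτ1, H1⟩ := hT e he0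
  obtain ⟨τ2, hτ2, H2⟩ := Pool.Agent.W688.HT.b0 e he0
  refine ⟨min (min τ1 τ2) (min e 1), by positivity, ?_⟩
  filter_upwards [H1, H2, bp_uc e he0, ev_N he0, ev_le (K := 10 * Real.exp 2) he0,
    eventually_ge_atTop 2] with N H1 H2 huc hN hK hN2
  intro ψ ψ' χ hψ1 hψ2 hψ'1 hψ'2 hχ1 hχ2 hg
  have hNR : (0 : ℝ) < N := by exact_mod_cast (show 0 < N by omega)
  have hτa : |ψ.im| ≤ τ2 := hψ2.trans ((min_le_left _ _).trans (min_le_right _ _))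
  have hτb : |ψ'.im| ≤ τ2 := hψ'2.trans ((min_le_left _ _).trans (min_le_right _ _))
  have hτc : |χ.im - y₀| ≤ τ1 := hχ2.trans ((min_le_left _ _).trans (min_le_left _ _))
  have hτd : |χ.im - y₀| ≤ e := hχ2.trans ((min_le_right _ _).trans (min_le_left _ _))
  have hτe : |χ.im - y₀| ≤ 1 := hχ2.trans ((min_le_right _ _).trans (min_le_right _ _))
  have hχ3 : |χ.im| ≤ 4 := by
    rw [abs_le] at hτe ⊢
    constructor <;> linarith
  have hχ4 : y₀ / 2 - |χ.im| / 2 ≤ e / 2 := by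
    have h5 := le_abs_self χ.im
    rw [abs_le] at hτd
    linarith
  have hTl := Tg_low hN2 hg hχ3
  have hT0 : 0 < ‖Tg N 0 χ‖ := by
    have h5 := Real.exp_pos (N * (|χ.im| / 2))
    by_contra h6
    have h7 : ‖Tg N 0 χ‖ = 0 := le_antisymm (not_lt.1 h6) (norm_nonneg _)
    rw [h7] at hTl
    linarith
  rw [diff_eq hN2 (norm_pos_iff.1 hT0)]
  have key : ∀ d < N, ∀ φ : ℂ, |φ.re| ≤ π → |φ.im| ≤ τ2 →
      ‖Rp N d φ‖ ≤ Sd N d ^ 2 * Real.exp (N * (bp ((d : ℝ) / N) + e)) := by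
    intro d hd φ hX hY
    have h5 := H2 d hd φ.re φ.im hX hY
    rw [Complex.re_add_im] at h5
    refine h5.trans ?_
    have hd1 : (d : ℝ) / N ≤ 1 := by
      rw [div_le_one hNR]
      exact_mod_cast hd.le
    have := h4 ((d : ℝ) / N) φ.re (by positivity) hd1 hX
    unfold bp
    gcongr
  have term : ∀ d ∈ Ico ((N - 1) / 2 + 1) N, ‖Rp N d ψ * Rp N d ψ' *
      ((Sd N (N - 1 - d) : ℂ) ^ 2 * (∏ t ∈ Ioc 0 (N - 1 - d), pc N χ t) /
        ((N : ℂ) ^ 2 * Tg N 0 χ))‖ ≤ Real.exp (N * (bet + 9 * e)) := by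
    intro d hd
    rw [mem_Ico] at hd
    set x := N - 1 - d with hx
    have hxN : x < N := by omega
    have hSd := Sd_pos hd.2
    have hSx := Sd_pos hxN
    have hmul := Sd_mul hd.2
    rw [← hx] at hmul
    have k1 := key d hd.2 ψ hψ1 hτa
    have k2 := key d hd.2 ψ' hψ'1 hτb
    have k3 := H1 x hxN χ hχ1 hτc
    have h5 := huc x hxN
    have h6 : N - 1 - x = d := by omega
    rw [h6] at h5
    have h7 : (x : ℝ) / N ≤ 1 := by
      rw [div_le_one hNR]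
      exact_mod_cast hxN.le
    have h7' : 0 ≤ (x : ℝ) / N := by positivity
    have h7'' : (x : ℝ) / N ≤ 1 / 2 := by
      rw [div_le_div_iff₀ hNR two_pos]
      have : x * 2 ≤ 1 * N := by omega
      exact_mod_cast this
    have h8 := hR1 (1 - (x : ℝ) / N) χ.re (by linarith) (by linarith) hχ1
    rw [sub_sub_cancel] at h8
    have h9 := hR3 (1 - (x : ℝ) / N) χ.re (by linarith) (by linarith) hχ1
    rw [norm_mul, norm_mul, norm_div, norm_mul, norm_mul, norm_pow, norm_pow, Complex.norm_real,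
      Real.norm_of_nonneg hSx.le, Complex.norm_natCast]
    have hinv : ‖Tg N 0 χ‖⁻¹ ≤ 10 * Real.exp 2 * Real.exp (-(N * (|χ.im| / 2))) := by
      rw [Real.exp_neg, ← div_eq_mul_inv, inv_eq_one_div, div_le_div_iff₀ hT0 (Real.exp_pos _),
        one_mul]
      exact hTl
    calc ‖Rp N d ψ‖ * ‖Rp N d ψ'‖ * (Sd N x ^ 2 * ‖∏ t ∈ Ioc 0 x, pc N χ t‖ /
          ((N : ℝ) ^ 2 * ‖Tg N 0 χ‖)) =
        ‖Rp N d ψ‖ * ‖Rp N d ψ'‖ * (Sd N x ^ 2 * ‖∏ t ∈ Ioc 0 x, pc N χ t‖) / (N : ℝ) ^ 2 *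
          ‖Tg N 0 χ‖⁻¹ := by
          field_simp
      _ ≤ (Sd N d ^ 2 * Real.exp (N * (bp ((d : ℝ) / N) + e))) *
          (Sd N d ^ 2 * Real.exp (N * (bp ((d : ℝ) / N) + e))) *
          (Sd N x ^ 2 * (Sd N x ^ 2 * Real.exp (N * (r ((x : ℝ) / N) χ.re + e)))) / (N : ℝ) ^ 2 *
          (10 * Real.exp 2 * Real.exp (-(N * (|χ.im| / 2)))) := by gcongr
      _ = ((Sd N d * Sd N x) ^ 4 / (N : ℝ) ^ 2) * (10 * Real.exp 2) *
          (Real.exp (N * (bp ((d : ℝ) / N) + e)) * Real.exp (N * (bp ((d : ℝ) / N) + e)) *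
          Real.exp (N * (r ((x : ℝ) / N) χ.re + e)) * Real.exp (-(N * (|χ.im| / 2)))) := by ring
      _ = (N : ℝ) ^ 2 * (10 * Real.exp 2) *
          Real.exp (N * (2 * bp ((d : ℝ) / N) + r ((x : ℝ) / N) χ.re + 3 * e - |χ.im| / 2)) := by
          rw [hmul, ← Real.exp_add, ← Real.exp_add, ← Real.exp_add]
          congr 2
          · field_simp
          · ring
      _ ≤ Real.exp (N * e) ^ 2 * Real.exp (N * e) * Real.exp (N * (bet + 6 * e)) := by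
          have h10 : 2 * bp ((d : ℝ) / N) + r ((x : ℝ) / N) χ.re + 3 * e - |χ.im| / 2 ≤
              bet + 6 * e := by
            unfold bp at h5 ⊢
            linarith
          gcongr
      _ = Real.exp (N * (bet + 9 * e)) := by
          rw [← Real.exp_nat_mul, ← Real.exp_add, ← Real.exp_add]
          congr 1
          push_cast
          ring
  refine (norm_sum_le _ _).trans ((sum_le_sum term).trans ?_)
  rw [sum_const, nsmul_eq_mul, Nat.card_Ico]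
  have h5 : ((N - ((N - 1) / 2 + 1) : ℕ) : ℝ) ≤ N := by
    exact_mod_cast Nat.sub_le _ _
  calc ((N - ((N - 1) / 2 + 1) : ℕ) : ℝ) * Real.exp (N * (bet + 9 * e)) ≤
      Real.exp (N * e) * Real.exp (N * (bet + 9 * e)) := by
        gcongr
        exact h5.trans hN
    _ = Real.exp (N * (bet + ε)) := by
        rw [← Real.exp_add]
        congr 1
        rw [he]
        ring

theorem Tg_neg (N d : ℕ) (χ : ℂ) : Tg N d (-χ) = Tg N d χ := by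
  unfold Tg
  rw [neg_div, Complex.cos_neg, Complex.cos_neg]

theorem kh_neg (N : ℕ) (ψ ψ' χ : ℂ) : kh N ψ ψ' (-χ) = kh N ψ ψ' χ := by
  unfold kh
  simp only [Tg_neg]

theorem kF_neg (N : ℕ) (ψ ψ' χ : ℂ) : kF N ψ ψ' (-χ) = kF N ψ ψ' χ := by
  unfold kF Ph
  simp only [Tg_neg, Complex.cos_neg]

theorem Gap_neg {N : ℕ} {χ : ℂ} (h : Gap N χ) : Gap N (-χ) := by
  intro t
  have h1 := h (-t)
  have h2 : -χ - 2 * π * t / N = -(χ - 2 * π * ((-t : ℤ) : ℂ) / N) := by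
    push_cast
    ring
  rw [h2, norm_neg]
  exact h1

/-- KRZ -/
theorem krz : S_KRZ := by
  intro hT0 hTY hR0 hRY ε hε
  obtain ⟨ρs, -, -, R1, -, R3, R4, -, -⟩ := hR0
  have key : ∀ y₀ : ℝ, ∃ τ : ℝ, 0 < τ ∧ (0 ≤ y₀ → y₀ ≤ 9 / 5 → ∀ᶠ N : ℕ in atTop, ∀ ψ ψ' χ : ℂ,
      |ψ.re| ≤ π → |ψ.im| ≤ τ → |ψ'.re| ≤ π → |ψ'.im| ≤ τ → |χ.re| ≤ π → |χ.im - y₀| ≤ τ →
      Gap N χ → ‖kF N ψ ψ' χ - kh N ψ ψ' χ‖ ≤ Real.exp (N * (bet + ε))) := by
    intro y₀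
    by_cases h : 0 ≤ y₀ ∧ y₀ ≤ 9 / 5
    · obtain ⟨τ, hτ, H⟩ : ∃ τ : ℝ, 0 < τ ∧ ∀ᶠ N : ℕ in atTop, ∀ ψ ψ' χ : ℂ,
          |ψ.re| ≤ π → |ψ.im| ≤ τ → |ψ'.re| ≤ π → |ψ'.im| ≤ τ → |χ.re| ≤ π → |χ.im - y₀| ≤ τ →
          Gap N χ → ‖kF N ψ ψ' χ - kh N ψ ψ' χ‖ ≤ Real.exp (N * (bet + ε)) := by
        rcases h.1.eq_or_lt with h0 | h0
        · refine krz_at h.1 h.2 rh ?_ ?_ ?_ R4 hε
          · intro e he
            obtain ⟨τ, hτ, H⟩ := hT0 e he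
            refine ⟨τ, hτ, ?_⟩
            filter_upwards [H] with N H
            intro x hx χ h1 h2
            have h3 := H 0 x (Nat.zero_le _) hx χ.re χ.im h1 (by
              rw [← h0, sub_zero] at h2
              exact h2)
            rw [Complex.re_add_im, Sd_zero] at h3
            have h4 : rh (((0 : ℕ) : ℝ) / N) χ.re = 0 := by
              unfold rh
              rw [Nat.cast_zero, zero_div, intervalIntegral.integral_same]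
            rw [h4, one_pow, div_one, sub_zero] at h3
            exact h3
          · intro δ x h1 h2 h3
            rw [← h0, R1 δ x h1 h2 h3, zero_sub]
          · intro δ x h1 h2 h3
            have := R3 δ x h1 h2 h3
            rw [← h0]
            linarith
        · obtain ⟨-, ρs', c₂, -, -, -, Q1, Q3, Q4, -, -, -⟩ := hRY y₀ h0 h.2
          refine krz_at h.1 h.2 (fun δ u => rhc δ (u + y₀ * Complex.I)) ?_ Q1 Q3 Q4 hε
          intro e he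
          obtain ⟨τ, hτ, H⟩ := hTY y₀ h0 h.2 e he
          refine ⟨τ, hτ, ?_⟩
          filter_upwards [H] with N H
          intro x hx χ h1 h2
          have h3 := H 0 x (Nat.zero_le _) hx χ.re χ.im h1 h2
          rw [Complex.re_add_im, Sd_zero] at h3
          have h4 : rhc (((0 : ℕ) : ℝ) / N) (χ.re + y₀ * Complex.I) = 0 := by
            unfold rhc
            rw [Nat.cast_zero, zero_div, intervalIntegral.integral_same]
          rw [h4, one_pow, div_one, sub_zero] at h3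
          exact h3
      exact ⟨τ, hτ, fun _ _ => H⟩
    · exact ⟨1, one_pos, fun h1 h2 => absurd ⟨h1, h2⟩ h⟩
  choose τ hτ H using key
  obtain ⟨s, hs1, hs2⟩ := (isCompact_Icc (a := (0 : ℝ)) (b := 9 / 5)).elim_nhds_subcover
    (fun y => Metric.ball y (τ y)) (fun y _ => Metric.ball_mem_nhds y (hτ y))
  have h1 : ∀ᶠ t : ℝ in 𝓝[>] 0, ∀ y ∈ s, t ≤ τ y := by
    rw [Filter.eventually_all_finset]
    intro y _
    exact (Ioo_mem_nhdsGT (hτ y)) |> fun h => by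
      filter_upwards [h] with t ht
      exact ht.2.le
  obtain ⟨τ₁, h2, hτ₁⟩ := (h1.and self_mem_nhdsWithin).exists
  refine ⟨τ₁, hτ₁, ?_⟩
  have h3 : ∀ᶠ N : ℕ in atTop, ∀ y ∈ s, ∀ ψ ψ' χ : ℂ,
      |ψ.re| ≤ π → |ψ.im| ≤ τ y → |ψ'.re| ≤ π → |ψ'.im| ≤ τ y → |χ.re| ≤ π → |χ.im - y| ≤ τ y →
      Gap N χ → ‖kF N ψ ψ' χ - kh N ψ ψ' χ‖ ≤ Real.exp (N * (bet + ε)) := by
    rw [Filter.eventually_all_finset]
    intro y hy
    exact H y (hs1 y hy).1 (hs1 y hy).2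
  filter_upwards [h3] with N h3
  have pos : ∀ ψ ψ' χ : ℂ, |ψ.re| ≤ π → |ψ.im| ≤ τ₁ → |ψ'.re| ≤ π → |ψ'.im| ≤ τ₁ →
      |χ.re| ≤ π → 0 ≤ χ.im → χ.im ≤ 9 / 5 → Gap N χ →
      ‖kF N ψ ψ' χ - kh N ψ ψ' χ‖ ≤ Real.exp (N * (bet + ε)) := by
    intro ψ ψ' χ a1 a2 a3 a4 a5 a6 a7 a8
    obtain ⟨y, hy, hyb⟩ := Set.mem_iUnion₂.1 (hs2 (show χ.im ∈ Set.Icc (0 : ℝ) (9 / 5) from
      ⟨a6, a7⟩))
    rw [Metric.mem_ball, Real.dist_eq] at hyb
    exact h3 y hy ψ ψ' χ a1 (a2.trans (h2 y hy)) a3 (a4.trans (h2 y hy)) a5 hyb.le a8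
  intro ψ ψ' χ a1 a2 a3 a4 a5 a6 a8
  rcases le_total 0 χ.im with h | h
  · exact pos ψ ψ' χ a1 a2 a3 a4 a5 h ((le_abs_self _).trans a6) a8
  · have h4 := pos ψ ψ' (-χ) a1 a2 a3 a4 (by rw [Complex.neg_re, abs_neg]; exact a5)
      (by rw [Complex.neg_im]; linarith) (by
        rw [Complex.neg_im]
        exact (neg_le_abs _).trans a6) (Gap_neg a8)
    rw [kF_neg, kh_neg] at h4
    exact h4

end Pool.Agent.Y37.CG
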